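import Mathlib
import Pool.Agent.R231.BN.Core2

set_option autoImplicit false

open Filter Topology Set Metric MeasureTheory
open scoped BoundedContinuousFunction ENNReal

namespace Pool.Agent.Results.MP_c23f48_an.RidgeOfOneBall

open Pool.Agent.R231.BN

variable {n : ℕ}

lemma ev_continuous (τ : MvPolynomial (Fin n) ℂ) : Continuous (ev τ) := by
  unfold ev
  simp only [MvPolynomial.eval_eq']
  fun_prop

/-- polynomials are polynomial along lines, with continuous coefficients -/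
lemma ev_line (τ : MvPolynomial (Fin n) ℂ) (e : V n) :
    ∃ (N : ℕ) (p : ℕ → V n → ℂ), (∀ j, Continuous (p j)) ∧
      ∀ a (u : ℝ), ev τ (a + u • e) = ∑ j ∈ Finset.range N, p j a * (u : ℂ) ^ j := by
  induction τ using MvPolynomial.induction_on with
  | C c =>
    refine ⟨1, fun _ _ => c, fun _ => continuous_const, fun a u => ?_⟩
    simp [ev]
  | add q₁ q₂ h₁ h₂ =>
    obtain ⟨N₁, p₁, hp₁, h₁⟩ := h₁
    obtain ⟨N₂, p₂, hp₂, h₂⟩ := h₂
    refine ⟨N₁ + N₂, fun j a => (if j < N₁ then p₁ j a else 0) + (if j < N₂ then p₂ j a else 0),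
      fun j => ?_, fun a u => ?_⟩
    · apply Continuous.add
      · split_ifs
        · exact hp₁ j
        · exact continuous_const
      · split_ifs
        · exact hp₂ j
        · exact continuous_const
    · have e0 : ev (q₁ + q₂) (a + u • e) = ev q₁ (a + u • e) + ev q₂ (a + u • e) := by simp [ev]
      rw [e0, h₁, h₂]
      simp only [add_mul, Finset.sum_add_distrib, ite_mul, zero_mul]
      congr 1
      · rw [Finset.sum_ite, Finset.sum_const_zero, add_zero]
        refine (Finset.sum_congr ?_ fun _ _ => rfl)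
        ext j; simp; omega
      · rw [Finset.sum_ite, Finset.sum_const_zero, add_zero]
        refine (Finset.sum_congr ?_ fun _ _ => rfl)
        ext j; simp; omega
  | mul_X q i h =>
    obtain ⟨N, p, hp, h⟩ := h
    refine ⟨N + 1, fun j a => (if j < N then p j a else 0) * ((a i : ℝ) : ℂ) +
      (if j = 0 then 0 else p (j - 1) a) * ((e i : ℝ) : ℂ), fun j => ?_, fun a u => ?_⟩
    · apply Continuous.add
      · apply Continuous.mul
        · split_ifs
          · exact hp j
          · exact continuous_const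
        · fun_prop
      · apply Continuous.mul _ continuous_const
        split_ifs
        · exact continuous_const
        · exact hp _
    · have e0 : ev (q * MvPolynomial.X i) (a + u • e) =
          ev q (a + u • e) * (((a i : ℝ) : ℂ) + u * ((e i : ℝ) : ℂ)) := by simp [ev]
      rw [e0, h]
      simp only [add_mul, Finset.sum_add_distrib, mul_add]
      congr 1
      · rw [Finset.sum_range_succ]
        simp only [lt_irrefl, if_false, zero_mul, add_zero]
        rw [Finset.sum_mul]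
        refine Finset.sum_congr rfl fun j hj => ?_
        rw [if_pos (Finset.mem_range.1 hj)]
        ring
      · rw [Finset.sum_range_succ']
        simp only [if_true, zero_mul, add_zero, Nat.add_sub_cancel, Nat.succ_ne_zero, if_false]
        rw [Finset.sum_mul]
        refine Finset.sum_congr rfl fun j _ => ?_
        ring

/-- the point of the ball at which `|τ|` is maximal -/
lemma exists_max (τ : MvPolynomial (Fin n) ℂ) {r : ℝ} (hr : 0 < r) :
    ∃ ξ₀ ∈ closedBall (0 : V n) r, ∀ ξ ∈ closedBall (0 : V n) r, ‖ev τ ξ‖ ≤ ‖ev τ ξ₀‖ := by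
  obtain ⟨ξ₀, h1, h2⟩ := (isCompact_closedBall (0 : V n) r).exists_isMaxOn
    ⟨0, mem_closedBall_self hr.le⟩ (ev_continuous τ).norm.continuousOn
  exact ⟨ξ₀, h1, fun ξ hξ => h2 hξ⟩

/-- tangential invariance of `τ` on the ball -/
lemma tangential {τ : MvPolynomial (Fin n) ℂ} {r : ℝ} (hr : 0 < r)
    (hop : opNorm τ (closedBall 0 r) = ⨆ ξ ∈ closedBall (0 : V n) r, ‖ev τ ξ‖ₑ) :
    ∃ ξ₀ : V n, ∀ ξ ξ' : V n, ‖ξ‖ ≤ r → ‖ξ'‖ ≤ r → inner ℝ ξ₀ (ξ' - ξ) = (0 : ℝ) →
      ev τ ξ = ev τ ξ' := by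
  obtain ⟨ξ₀, hξ₀, hmax⟩ := exists_max τ hr
  have hξ₀' : ‖ξ₀‖ ≤ r := by rwa [mem_closedBall_zero_iff] at hξ₀
  refine ⟨ξ₀, fun ξ ξ' hξ hξ' hperp => ?_⟩
  set M : ℝ := ‖ev τ ξ₀‖ with hM
  by_cases hz : ev τ ξ₀ = 0
  · have h1 := hmax ξ (by rwa [mem_closedBall_zero_iff])
    have h2 := hmax ξ' (by rwa [mem_closedBall_zero_iff])
    rw [hM, hz, norm_zero] at h1 h2
    rw [norm_le_zero_iff.1 h1, norm_le_zero_iff.1 h2]
  by_cases hne : ξ' - ξ = 0
  · rw [sub_eq_zero] at hne; rw [hne]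
  have hMpos : 0 < M := norm_pos_iff.2 hz
  have hop' : opNorm τ (closedBall (0 : V n) r) ≤ ENNReal.ofReal M := by
    rw [hop]
    refine iSup₂_le fun η hη => ?_
    rw [← ofReal_norm]
    exact ENNReal.ofReal_le_ofReal (hmax η hη)
  set P : V n → ℂ := fun η => ev τ (ξ₀ + η) / ev τ ξ₀ with hP
  -- the functional
  set I := {η : V n // ‖ξ₀ + η‖ ≤ r} with hI
  obtain ⟨L, hLn, hL⟩ := exists_functional (fun η : I => bch η.1) (fun η : I => P η.1) (by
    intro c
    rw [Finsupp.linearCombination_apply, Finsupp.linearCombination_apply, Finsupp.sum, Finsupp.sum]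
    set g : V n →ᵇ ℂ := ∑ a ∈ c.support, c a • bch a.1 with hg
    have hb : ∀ x, ‖es c.support (fun η : I => ξ₀ + η.1) (fun i => c i) x‖ ≤ ‖g‖ := by
      intro x
      have h1 : es c.support (fun η : I => ξ₀ + η.1) (fun i => c i) x = ch ξ₀ x * g x := by
        rw [hg]
        unfold es
        simp only [BoundedContinuousFunction.coe_sum, Finset.sum_apply,
          BoundedContinuousFunction.coe_smul, bch_apply, smul_eq_mul]
        rw [Finset.mul_sum]
        refine Finset.sum_congr rfl fun i _ => ?_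
        rw [ch_add]; ring
      rw [h1, norm_mul, norm_ch, one_mul]
      exact g.norm_coe_le_norm x
    have h2 := es_bound hop' hMpos.le c.support (fun η : I => ξ₀ + η.1) (fun i => c i)
      (fun i _ => by rw [mem_closedBall_zero_iff]; exact i.2) (norm_nonneg g) hb
    have h3 : ∑ a ∈ c.support, c a • P a.1 =
        (∑ i ∈ c.support, c i * ev τ (ξ₀ + i.1)) / ev τ ξ₀ := by
      rw [Finset.sum_div]
      refine Finset.sum_congr rfl fun i _ => ?_
      rw [hP, smul_eq_mul, mul_div_assoc]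
    rw [h3, norm_div, div_le_iff₀ hMpos]
    exact h2)
  have hP' : ∀ η, ‖ξ₀ + η‖ ≤ r → L (bch η) = P η := fun η hη => hL ⟨η, hη⟩
  have hL1 : L 1 = 1 := by
    have h1 : (bch 0 : V n →ᵇ ℂ) = 1 := by ext x; simp [ch_zero]
    rw [← h1, hP' 0 (by rw [add_zero]; exact hξ₀')]
    simp [hP, hz]
  set w : V n := ξ' - ξ with hw
  have hwn : 0 < ‖w‖ := norm_pos_iff.2 hne
  set e : V n := (‖w‖)⁻¹ • w with he
  have hc : Ctx L ξ₀ e r P := by
    refine ⟨⟨hLn, hL1⟩, hr, hξ₀', ?_, ?_, hP', ?_, ?_⟩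
    · rw [he, norm_smul, norm_inv, norm_norm, inv_mul_cancel₀ hwn.ne']
    · rw [he, inner_smul_right, hperp, mul_zero]
    · have := ev_continuous τ
      fun_prop
    · obtain ⟨N, p, hp, hpe⟩ := ev_line τ e
      refine ⟨N, fun j a => p j (ξ₀ + a) / ev τ ξ₀, fun j => ?_, fun a u => ?_⟩
      · have := hp j
        fun_prop
      · simp only [hP]
        rw [← add_assoc, hpe, Finset.sum_div]
        exact Finset.sum_congr rfl fun j _ => by ring
  have hsh := shift_invariant hc hwn (ξ - ξ₀)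
  have h1 : ξ - ξ₀ + ‖w‖ • e = ξ' - ξ₀ := by
    rw [he, smul_smul, mul_inv_cancel₀ hwn.ne', one_smul, hw]; abel
  rw [h1, hP' _ (by rw [add_sub_cancel]; exact hξ'), hP' _ (by rw [add_sub_cancel]; exact hξ)] at hsh
  simp only [hP, add_sub_cancel] at hsh
  have := div_left_inj' hz |>.1 hsh
  exact this.symm

/-- restriction of `τ` to the line through `b` -/
noncomputable def pol (τ : MvPolynomial (Fin n) ℂ) (b : V n) : Polynomial ℂ :=
  MvPolynomial.aeval (fun k => Polynomial.C ((b k : ℝ) : ℂ) * Polynomial.X) τ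

lemma pol_eval (τ : MvPolynomial (Fin n) ℂ) (b : V n) (s : ℝ) :
    (pol τ b).eval (s : ℂ) = ev τ (s • b) := by
  unfold pol
  induction τ using MvPolynomial.induction_on with
  | C c => simp [ev]
  | add p q hp hq =>
    rw [map_add, Polynomial.eval_add, hp, hq]
    simp [ev]
  | mul_X p i hp =>
    rw [map_mul, Polynomial.eval_mul, hp, MvPolynomial.aeval_X]
    simp [ev]
    left
    ring

/-- If the norm of `τ(D)` on `B(K)` equals `max_K |τ|` for a single ball `K` centred at the origin,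
then `τ` is a ridge polynomial. -/
theorem result (n : ℕ) (τ : MvPolynomial (Fin n) ℂ) (r : ℝ) (hr : 0 < r)
    (hop : opNorm τ (closedBall 0 r) = ⨆ ξ ∈ closedBall (0 : V n) r, ‖ev τ ξ‖ₑ) :
    ∃ (a : V n) (ρ : Polynomial ℂ), ∀ ξ : V n, ev τ ξ = ρ.eval ((inner ℝ a ξ : ℝ) : ℂ) := by
  obtain ⟨ξ₀, htan⟩ := tangential hr hop
  set a : V n := (‖ξ₀‖)⁻¹ • ξ₀ with ha
  have han : ‖a‖ ≤ 1 := by
    rw [ha, norm_smul, norm_inv, norm_norm]
    exact inv_mul_le_one
  have hξa : ξ₀ = ‖ξ₀‖ • a := by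
    rw [ha, smul_smul]
    by_cases h : ‖ξ₀‖ = 0
    · rw [norm_eq_zero] at h; simp [h]
    · rw [mul_inv_cancel₀ h, one_smul]
  set ρ : Polynomial ℂ := pol τ a with hρ
  have hρe : ∀ s : ℝ, ρ.eval (s : ℂ) = ev τ (s • a) := fun s => pol_eval τ a s
  refine ⟨a, ρ, ?_⟩
  -- on the ball
  have hball : ∀ ξ : V n, ‖ξ‖ ≤ r → ev τ ξ = ev τ ((inner ℝ a ξ : ℝ) • a) := by
    intro ξ hξ
    apply htan ξ _ hξ
    · rw [norm_smul, Real.norm_eq_abs]
      have h1 : |(inner ℝ a ξ : ℝ)| ≤ ‖a‖ * ‖ξ‖ := abs_real_inner_le_norm a ξ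
      have h2 : ‖a‖ * ‖ξ‖ ≤ 1 * r := by gcongr
      have h3 := norm_nonneg a
      have h4 := abs_nonneg (inner ℝ a ξ : ℝ)
      nlinarith
    · rw [inner_sub_right, inner_smul_right]
      by_cases h : ‖ξ₀‖ = 0
      · rw [norm_eq_zero] at h; simp [h]
      · have h1 : (inner ℝ ξ₀ a : ℝ) = ‖ξ₀‖ := by
          rw [ha, inner_smul_right, real_inner_self_eq_norm_sq]
          field_simp
        have h2 : (inner ℝ ξ₀ ξ : ℝ) = ‖ξ₀‖ * inner ℝ a ξ := by
          conv_lhs => rw [hξa]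
          rw [inner_smul_left]; simp
        rw [h1, h2]; ring
  intro ξ
  -- extend along the ray
  have heq : pol τ ξ = ρ.comp (Polynomial.C (((inner ℝ a ξ : ℝ)) : ℂ) * Polynomial.X) := by
    apply Polynomial.eq_of_infinite_eval_eq
    set δ : ℝ := r / (‖ξ‖ + 1) with hδ
    have hδ0 : 0 < δ := by positivity
    have hinf : Set.Infinite ((fun x : ℝ => (x : ℂ)) '' Ioo (0 : ℝ) δ) :=
      (Set.Ioo_infinite hδ0).image (Complex.ofReal_injective.injOn)
    refine hinf.mono ?_
    rintro _ ⟨s, ⟨hs0, hs1⟩, rfl⟩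
    show (pol τ ξ).eval (s : ℂ) = (ρ.comp (Polynomial.C (((inner ℝ a ξ : ℝ)) : ℂ) * Polynomial.X)).eval (s : ℂ)
    rw [pol_eval, Polynomial.eval_comp, Polynomial.eval_mul, Polynomial.eval_C, Polynomial.eval_X,
      ← Complex.ofReal_mul, hρe]
    have h1 : ‖s • ξ‖ ≤ r := by
      rw [norm_smul, Real.norm_of_nonneg hs0.le]
      calc s * ‖ξ‖ ≤ δ * (‖ξ‖ + 1) := by
            have := norm_nonneg ξ
            nlinarith
        _ = r := by rw [hδ]; field_simp
    rw [hball _ h1, inner_smul_right, mul_comm]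
  have h1 := pol_eval τ ξ 1
  rw [heq, one_smul, Polynomial.eval_comp, Polynomial.eval_mul, Polynomial.eval_C,
    Polynomial.eval_X, Complex.ofReal_one, mul_one] at h1
  exact h1.symm

end Pool.Agent.Results.MP_c23f48_an.RidgeOfOneBall
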